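import Pool.Agent.Y19.QT.Forms

set_option autoImplicit false

/-! Project QT, task T10: point counts of quadratic twists modulo `p`. -/

namespace Pool.Agent.Y691.QT

open Pool.Agent.Y19.QT

/-- number of points of `y² = x³ + a x + b` as a character sum -/
theorem card_eq (p : ℕ) [Fact p.Prime] (hp : p ≠ 2) (a b : ZMod p) :
    (Nat.card {x : ZMod p × ZMod p // x.2 ^ 2 = x.1 ^ 3 + a * x.1 + b} : ℤ) =
      p + ∑ x : ZMod p, quadraticChar (ZMod p) (x ^ 3 + a * x + b) := by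
  classical
  have h1 : Nat.card {x : ZMod p × ZMod p // x.2 ^ 2 = x.1 ^ 3 + a * x.1 + b} =
      ∑ x : ZMod p, {y : ZMod p | y ^ 2 = x ^ 3 + a * x + b}.toFinset.card := by
    rw [← Finset.card_sigma, Nat.card_eq_fintype_card, Fintype.card_subtype]
    refine Finset.card_bij' (fun x _ => ⟨x.1, x.2⟩) (fun x _ => (x.1, x.2)) ?_ ?_ ?_ ?_
    · intro x hx
      simpa using hx
    · intro x hx
      simpa using hx
    · intro x _
      rfl
    · intro x _
      rfl
  rw [h1]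
  push_cast
  have hc : ringChar (ZMod p) ≠ 2 := by
    rwa [ZMod.ringChar_zmod_n]
  have h2 : ∀ x : ZMod p, (({y : ZMod p | y ^ 2 = x ^ 3 + a * x + b}.toFinset.card : ℕ) : ℤ) =
      quadraticChar (ZMod p) (x ^ 3 + a * x + b) + 1 := by
    intro x
    exact quadraticChar_card_sqrts hc _
  rw [Finset.sum_congr rfl fun x _ => h2 x, Finset.sum_add_distrib]
  simp
  ring

theorem ap_twist (a b g : ℤ) (p : ℕ) (hp : p.Prime) (hp2 : p ≠ 2) (hg : ¬ (p : ℤ) ∣ g) :
    ap (a * g ^ 2) (b * g ^ 3) p = jacobiSym g p * ap a b p := by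
  have : Fact p.Prime := ⟨hp⟩
  have hg0 : (g : ZMod p) ≠ 0 := by
    rwa [Ne, ZMod.intCast_zmod_eq_zero_iff_dvd]
  have key : ∑ x : ZMod p, quadraticChar (ZMod p)
      (x ^ 3 + ((a * g ^ 2 : ℤ) : ZMod p) * x + ((b * g ^ 3 : ℤ) : ZMod p)) =
      quadraticChar (ZMod p) (g : ZMod p) *
        ∑ x : ZMod p, quadraticChar (ZMod p) (x ^ 3 + (a : ZMod p) * x + (b : ZMod p)) := by
    rw [Finset.mul_sum, ← Equiv.sum_comp (Equiv.mulLeft₀ (g : ZMod p) hg0)]
    refine Finset.sum_congr rfl fun x _ => ?_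
    have e : ((g : ZMod p) * x) ^ 3 + ((a * g ^ 2 : ℤ) : ZMod p) * ((g : ZMod p) * x) +
        ((b * g ^ 3 : ℤ) : ZMod p) =
        (g : ZMod p) ^ 2 * ((g : ZMod p) * (x ^ 3 + (a : ZMod p) * x + (b : ZMod p))) := by
      push_cast
      ring
    show quadraticChar (ZMod p) (((g : ZMod p) * x) ^ 3 + ((a * g ^ 2 : ℤ) : ZMod p) *
      ((g : ZMod p) * x) + ((b * g ^ 3 : ℤ) : ZMod p)) = _
    rw [e, map_mul, map_mul, quadraticChar_sq_one' hg0, one_mul]
  have hj : jacobiSym g p = quadraticChar (ZMod p) (g : ZMod p) := by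
    rw [← jacobiSym.legendreSym.to_jacobiSym]
    rfl
  unfold ap
  rw [card_eq p hp2, card_eq p hp2, key, hj]
  ring

end Pool.Agent.Y691.QT
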