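import Pool.Agent.Y691.QT.Form

set_option autoImplicit false

/-! Project QT, task T10: the coefficients of the twists. -/

namespace Pool.Agent.Y691.QT

open Pool.Agent.Y19.QT
open Complex UpperHalfPlane MatrixGroups CongruenceSubgroup
open Pool.Agent.H306R2.RZ (js)
open Pool.Agent.Y705.QT (js_mul js_one js_abs_le cheb_bound)

theorem coef_zero {N : ℕ} (f : CuspForm (Gamma0 N : Subgroup (GL (Fin 2) ℝ)) 2) :
    coef f 0 = 0 := by
  unfold coef
  exact CuspFormClass.qExpansion_coeff_zero f one_pos (by simp)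

/-- all prime factors of `n` divide `Q` -/
noncomputable def sm (Q n : ℕ) : ℝ :=
  open Classical in if ∀ p : ℕ, p.Prime → p ∣ n → p ∣ Q then 1 else 0

/-- `n` is prime to `Q` -/
noncomputable def co (Q n : ℕ) : ℝ := if n.Coprime Q then 1 else 0

theorem sm_one (Q : ℕ) : sm Q 1 = 1 := by
  unfold sm
  rw [if_pos]
  intro p hp h
  exact absurd (Nat.dvd_one.1 h) hp.ne_one

theorem sm_mul (Q : ℕ) (m n : ℕ) (_ : m ≠ 0) (_ : n ≠ 0) (_ : m.Coprime n) :
    sm Q (m * n) = sm Q m * sm Q n := by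
  classical
  unfold sm
  by_cases h1 : ∀ p : ℕ, p.Prime → p ∣ m → p ∣ Q
  · by_cases h2 : ∀ p : ℕ, p.Prime → p ∣ n → p ∣ Q
    · rw [if_pos h1, if_pos h2, if_pos, one_mul]
      intro p hp h
      rcases (hp.dvd_mul).1 h with h | h
      · exact h1 p hp h
      · exact h2 p hp h
    · rw [if_neg h2, if_neg, mul_zero]
      intro h
      exact h2 fun p hp hd => h p hp (dvd_mul_of_dvd_right hd m)
  · rw [if_neg h1, if_neg, zero_mul]
    intro h
    exact h1 fun p hp hd => h p hp (dvd_mul_of_dvd_left hd n)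

theorem sm_pow {Q p : ℕ} (hp : p.Prime) (k : ℕ) :
    sm Q (p ^ (k + 1)) = if p ∣ Q then 1 else 0 := by
  unfold sm
  split_ifs with h1 h2 h2
  · rfl
  · exact absurd (h1 p hp (dvd_pow_self p (Nat.succ_ne_zero k))) h2
  · exfalso
    apply h1
    intro q hq hd
    have := (Nat.prime_dvd_prime_iff_eq hq hp).1 (hq.dvd_of_dvd_pow hd)
    rwa [this]
  · rfl

theorem co_one (Q : ℕ) : co Q 1 = 1 := by simp [co]

theorem co_mul (Q : ℕ) (m n : ℕ) (_ : m ≠ 0) (_ : n ≠ 0) (_ : m.Coprime n) :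
    co Q (m * n) = co Q m * co Q n := by
  unfold co
  by_cases h1 : m.Coprime Q
  · by_cases h2 : n.Coprime Q
    · rw [if_pos h1, if_pos h2, if_pos (h1.mul_left h2), one_mul]
    · rw [if_neg h2, if_neg, mul_zero]
      intro h
      exact h2 (Nat.Coprime.coprime_mul_left h)
  · rw [if_neg h1, if_neg, zero_mul]
    intro h
    exact h1 (Nat.Coprime.coprime_mul_right h)

theorem co_pow {Q p : ℕ} (hp : p.Prime) (k : ℕ) :
    co Q (p ^ (k + 1)) = if p ∣ Q then 0 else 1 := by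
  have h : (p ^ (k + 1)).Coprime Q ↔ ¬ p ∣ Q := by
    rw [Nat.coprime_pow_left_iff k.succ_pos, hp.coprime_iff_not_dvd]
  unfold co
  by_cases h1 : p ∣ Q
  · rw [if_neg (fun h2 => (h.1 h2) h1), if_pos h1]
  · rw [if_pos (h.2 h1), if_neg h1]

variable {a b : ℤ} {N : ℕ} {f : CuspForm (Gamma0 N : Subgroup (GL (Fin 2) ℝ)) 2}

/-- the coefficients away from `Q` -/
noncomputable def lamQ {N : ℕ} (f : CuspForm (Gamma0 N : Subgroup (GL (Fin 2) ℝ)) 2)
    (Q n : ℕ) : ℝ := nf f n * co Q n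

theorem lamQ_mul (hf : IsFormOf a b N f) (Q : ℕ) : MulF (lamQ f Q) :=
  (nf_mul hf).prod' (co_one Q) (co_mul Q)

/-- the coefficients at the primes dividing `Q`, twisted by `(·/m)` -/
noncomputable def ee {N : ℕ} (f : CuspForm (Gamma0 N : Subgroup (GL (Fin 2) ℝ)) 2)
    (Q m n : ℕ) : ℝ := nf f n * sm Q n * js n m

theorem ee_mul (hf : IsFormOf a b N f) (Q m : ℕ) : MulF (ee f Q m) := by
  refine ((nf_mul hf).prod' (sm_one Q) (sm_mul Q)).prod' (by simpa using js_one_left m) ?_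
  intro x y _ _ _
  rw [Nat.cast_mul, js_mul_left]

theorem ee_pow (hf : IsFormOf a b N f) {Q m p : ℕ} (hp : p.Prime) (hpQ : p ∣ Q) (k : ℕ) :
    ee f Q m (p ^ k) = nf f (p ^ k) * js p m ^ k := by
  rcases k with _ | k
  · simp [(ee_mul hf Q m).one, (nf_mul hf).one]
  · unfold ee
    rw [sm_pow hp, if_pos hpQ, mul_one, Nat.cast_pow, js_pow_left]

theorem ee_pow' {N : ℕ} (f : CuspForm (Gamma0 N : Subgroup (GL (Fin 2) ℝ)) 2) {Q m p : ℕ}
    (hp : p.Prime) (hpQ : ¬ p ∣ Q) (k : ℕ) :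
    ee f Q m (p ^ (k + 1)) = 0 := by
  unfold ee
  rw [sm_pow hp, if_neg hpQ, mul_zero, zero_mul]

/-- its inverse at prime powers -/
noncomputable def iu {N : ℕ} (f : CuspForm (Gamma0 N : Subgroup (GL (Fin 2) ℝ)) 2)
    (Q m p k : ℕ) : ℝ :=
  if p ∣ Q then (if k = 1 then -(nf f p * js p m) else if k = 2 ∧ ¬ p ∣ N then 1 else 0) else 0

/-- the Dirichlet inverse of `ee` -/
noncomputable def ei {N : ℕ} (f : CuspForm (Gamma0 N : Subgroup (GL (Fin 2) ℝ)) 2)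
    (Q m : ℕ) : ℕ → ℝ := ppf (iu f Q m)

theorem js_abs_pow (x : ℤ) (m k : ℕ) : |js x m ^ k| ≤ 1 := by
  rw [abs_pow]
  exact pow_le_one₀ (abs_nonneg _) (js_abs_le x m)

theorem ee_pow_le (hf : IsFormOf a b N f) {Q m p : ℕ} (hp : p.Prime) (k : ℕ) :
    |ee f Q m (p ^ k)| ≤ k + 1 := by
  by_cases hpQ : p ∣ Q
  · rw [ee_pow hf hp hpQ, abs_mul]
    calc |nf f (p ^ k)| * |js p m ^ k| ≤ ((k : ℝ) + 1) * 1 :=
          mul_le_mul (nf_pow_le hf hp k) (js_abs_pow _ _ _) (abs_nonneg _) (by positivity)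
      _ = k + 1 := mul_one _
  · rcases k with _ | k
    · simp [(ee_mul hf Q m).one]
    · rw [ee_pow' f hp hpQ, abs_zero]
      positivity

theorem ei_pow_le (hf : IsFormOf a b N f) {Q m p : ℕ} (hp : p.Prime) (k : ℕ) :
    |ei f Q m (p ^ k)| ≤ k + 1 := by
  rcases k with _ | k
  · simp [ei, (ppf_mul (iu f Q m)).one]
  · unfold ei
    rw [ppf_pow _ hp]
    unfold iu
    push_cast
    have hk : (0 : ℝ) ≤ k := by positivity
    split_ifs with h1 h2 h3
    · rw [abs_neg, abs_mul]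
      have h4 := nf_pow_le hf hp 1
      have h5 := js_abs_le (p : ℤ) m
      rw [pow_one] at h4
      push_cast at h4
      calc |nf f p| * |js p m| ≤ (1 + 1) * 1 := mul_le_mul h4 h5 (abs_nonneg _) (by norm_num)
        _ ≤ _ := by linarith
    · rw [abs_one]
      linarith
    · rw [abs_zero]
      linarith
    · rw [abs_zero]
      linarith

theorem cv_ee_ei (hf : IsFormOf a b N f) {Q m : ℕ} (hc : m.Coprime Q) (n : ℕ) :
    cv (ee f Q m) (ei f Q m) n = if n = 1 then 1 else 0 := by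
  refine MulF.ext ((ee_mul hf Q m).cv (ppf_mul (iu f Q m))) MulF.delta ?_ n
  intro p k hp
  have hne : p ^ (k + 1) ≠ 1 := by
    rw [Ne, Nat.pow_eq_one]
    push Not
    exact ⟨hp.ne_one, Nat.succ_ne_zero k⟩
  simp only [hne, if_false]
  change cv (ee f Q m) (ppf (iu f Q m)) (p ^ (k + 1)) = 0
  rw [cv_pow _ _ hp]
  by_cases hpQ : p ∣ Q
  · -- only the last three terms survive
    have hsq : js p m ^ 2 = 1 := by
      apply js_sq
      have : Nat.Coprime p m := (Nat.Coprime.coprime_dvd_right hpQ hc).symm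
      simpa [Int.gcd] using this
    rcases k with _ | k
    · rw [Finset.sum_range_succ, Finset.sum_range_succ, Finset.sum_range_zero]
      simp only [zero_add, pow_zero, Nat.sub_zero, Nat.sub_self]
      rw [show (1 : ℕ) = 0 + 1 from rfl, ppf_pow _ hp, zero_add, (ee_mul hf Q m).one,
        ee_pow hf hp hpQ, (ppf_mul (iu f Q m)).one]
      simp [iu, hpQ]
    · rw [Finset.sum_range_succ, Finset.sum_range_succ, Finset.sum_range_succ]
      have h0 : ∑ x ∈ Finset.range k, ee f Q m (p ^ x) *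
          ppf (iu f Q m) (p ^ (k + 1 + 1 - x)) = 0 := by
        refine Finset.sum_eq_zero fun x hx => ?_
        have hx' := Finset.mem_range.1 hx
        obtain ⟨j, hj⟩ : ∃ j, k + 1 + 1 - x = j + 2 + 1 := ⟨k - x - 1, by omega⟩
        rw [hj, ppf_pow _ hp]
        simp [iu]
      rw [h0, zero_add]
      have e1 : k + 1 + 1 - k = 1 + 1 := by omega
      have e2 : k + 1 + 1 - (k + 1) = 0 + 1 := by omega
      have e3 : k + 1 + 1 - (k + 1 + 1) = 0 := by omega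
      rw [e1, e2, e3, ppf_pow _ hp, ppf_pow _ hp, pow_zero, (ppf_mul (iu f Q m)).one,
        ee_pow hf hp hpQ, ee_pow hf hp hpQ, ee_pow hf hp hpQ, nf_rec hf hp k]
      simp only [iu, hpQ, if_true]
      by_cases hN : p ∣ N
      · simp [hN]
        ring
      · simp [hN]
        have : js p m ^ (k + 1 + 1) = js p m ^ k := by
          rw [show k + 1 + 1 = k + 2 from rfl, pow_add, hsq, mul_one]
        rw [this]
        have h2 : js p m ^ (k + 1) * js p m = js p m ^ k := by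
          rw [← pow_succ, this]
        linear_combination (-(nf f (p ^ (k + 1)) * nf f p)) * h2
  · refine Finset.sum_eq_zero fun x hx => ?_
    rcases x with _ | x
    · rw [Nat.sub_zero, ppf_pow _ hp]
      simp [iu, hpQ]
    · rw [ee_pow' f hp hpQ, zero_mul]

/-! ### comparison of two twists -/

variable {g : ℤ} {N₁ : ℕ} {f₁ : CuspForm (Gamma0 N₁ : Subgroup (GL (Fin 2) ℝ)) 2}

theorem nf_good_eq {a b : ℤ} (h1 : IsFormOf (a * 1 ^ 2) (b * 1 ^ 3) N₁ f₁)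
    (hg : IsFormOf (a * g ^ 2) (b * g ^ 3) N f) {Q : ℕ}
    (hQ : ∀ p : ℕ, p.Prime → (p : ℤ) ∣ 2 * (4 * a ^ 3 + 27 * b ^ 2) → p ∣ Q)
    (hgQ : ∀ p : ℕ, p.Prime → (p : ℤ) ∣ g → p ∣ Q) {p : ℕ} (hp : p.Prime) (hpQ : ¬ p ∣ Q) :
    ¬ p ∣ N₁ ∧ ¬ p ∣ N ∧ nf f₁ p = ap a b p / Real.sqrt p ∧ nf f p = js g p * nf f₁ p := by
  have hd : ¬ (p : ℤ) ∣ 2 * (4 * a ^ 3 + 27 * b ^ 2) := fun h => hpQ (hQ p hp h)
  have hgp : ¬ (p : ℤ) ∣ g := fun h => hpQ (hgQ p hp h)
  have hpi : Prime (p : ℤ) := Nat.prime_iff_prime_int.1 hp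
  have hp2 : p ≠ 2 := by
    rintro rfl
    exact hd (Dvd.intro _ rfl)
  have e1 : ¬ (p : ℤ) ∣ 2 * (4 * (a * 1 ^ 2) ^ 3 + 27 * (b * 1 ^ 3) ^ 2) := by
    have : 2 * (4 * (a * 1 ^ 2) ^ 3 + 27 * (b * 1 ^ 3) ^ 2) = 2 * (4 * a ^ 3 + 27 * b ^ 2) := by
      ring
    rwa [this]
  have e2 : ¬ (p : ℤ) ∣ 2 * (4 * (a * g ^ 2) ^ 3 + 27 * (b * g ^ 3) ^ 2) := by
    have : 2 * (4 * (a * g ^ 2) ^ 3 + 27 * (b * g ^ 3) ^ 2) =
        g ^ 6 * (2 * (4 * a ^ 3 + 27 * b ^ 2)) := by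
      ring
    rw [this]
    intro h
    rcases hpi.dvd_or_dvd h with h | h
    · exact hgp (hpi.dvd_of_dvd_pow h)
    · exact hd h
  obtain ⟨n1, c1⟩ := h1.points p hp e1
  obtain ⟨n2, c2⟩ := hg.points p hp e2
  refine ⟨n1, n2, ?_, ?_⟩
  · unfold nf cr
    rw [c1]
    simp
  · unfold nf cr
    rw [c1, c2, ap_twist a b g p hp hp2 hgp]
    simp only [one_pow, mul_one]
    unfold js
    simp
    ring

theorem nf_pow_eq {a b : ℤ} (h1 : IsFormOf (a * 1 ^ 2) (b * 1 ^ 3) N₁ f₁)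
    (hg : IsFormOf (a * g ^ 2) (b * g ^ 3) N f) {Q : ℕ}
    (hQ : ∀ p : ℕ, p.Prime → (p : ℤ) ∣ 2 * (4 * a ^ 3 + 27 * b ^ 2) → p ∣ Q)
    (hgQ : ∀ p : ℕ, p.Prime → (p : ℤ) ∣ g → p ∣ Q) {p : ℕ} (hp : p.Prime) (hpQ : ¬ p ∣ Q) (k : ℕ) :
    nf f (p ^ k) = js g p ^ k * nf f₁ (p ^ k) := by
  obtain ⟨n1, n2, -, e⟩ := nf_good_eq h1 hg hQ hgQ hp hpQ
  have hsq : js g p ^ 2 = 1 := by
    apply js_sq
    have h3 : ¬ p ∣ g.natAbs := fun h => hpQ (hgQ p hp (Int.natCast_dvd.2 h))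
    exact ((Nat.Prime.coprime_iff_not_dvd hp).2 h3).symm
  have key : ∀ k : ℕ, nf f (p ^ k) = js g p ^ k * nf f₁ (p ^ k) ∧
      nf f (p ^ (k + 1)) = js g p ^ (k + 1) * nf f₁ (p ^ (k + 1)) := by
    intro k
    induction k with
    | zero =>
      refine ⟨by simp [(nf_mul hg).one, (nf_mul h1).one], ?_⟩
      simpa using e
    | succ k ih =>
      refine ⟨ih.2, ?_⟩
      have r1 := nf_rec h1 hp k
      have r2 := nf_rec hg hp k
      rw [if_neg n1] at r1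
      rw [if_neg n2] at r2
      rw [show k + 1 + 1 = k + 2 from rfl, r1, r2, ih.1, ih.2, e]
      have : js g p ^ (k + 2) = js g p ^ k := by rw [pow_add, hsq, mul_one]
      linear_combination (nf f₁ (p ^ k)) * this
  exact (key k).1

theorem cv_lam {a b : ℤ} (h1 : IsFormOf (a * 1 ^ 2) (b * 1 ^ 3) N₁ f₁)
    (hg : IsFormOf (a * g ^ 2) (b * g ^ 3) N f) {Q m : ℕ} (h2 : 2 ∣ Q)
    (hQ : ∀ p : ℕ, p.Prime → (p : ℤ) ∣ 2 * (4 * a ^ 3 + 27 * b ^ 2) → p ∣ Q)
    (hgQ : ∀ p : ℕ, p.Prime → (p : ℤ) ∣ g → p ∣ Q) (hm : Odd m) (n : ℕ) :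
    cv (ee f Q m) (fun n => lamQ f₁ Q n * js (g * (ZMod.χ₄ m * m)) n) n =
      nf f n * js n m := by
  have hL : MulF (fun n => lamQ f₁ Q n * js (g * (ZMod.χ₄ m * m)) n) :=
    (lamQ_mul h1 Q).prod' (js_one _) fun x y hx hy _ => js_mul _ hx hy
  have hR : MulF (fun n => nf f n * js n m) :=
    (nf_mul hg).prod' (by simpa using js_one_left m) fun x y _ _ _ => by
      rw [Nat.cast_mul, js_mul_left]
  refine MulF.ext ((ee_mul hg Q m).cv hL) hR ?_ n
  intro p k hp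
  rw [cv_pow _ _ hp]
  by_cases hpQ : p ∣ Q
  · rw [Finset.sum_range_succ]
    have h0 : ∑ x ∈ Finset.range (k + 1), ee f Q m (p ^ x) *
        (lamQ f₁ Q (p ^ (k + 1 - x)) * js (g * (ZMod.χ₄ m * m)) (p ^ (k + 1 - x))) = 0 := by
      refine Finset.sum_eq_zero fun x hx => ?_
      have hx' := Finset.mem_range.1 hx
      obtain ⟨j, hj⟩ : ∃ j, k + 1 - x = j + 1 := ⟨k - x, by omega⟩
      rw [hj]
      unfold lamQ
      rw [co_pow hp, if_pos hpQ]
      ring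
    simp only [h0, zero_add, Nat.sub_self, pow_zero]
    rw [hL.one, mul_one, ee_pow hg hp hpQ, Nat.cast_pow, js_pow_left]
  · rw [Finset.sum_range_succ', Finset.sum_eq_zero, zero_add]
    · simp only [pow_zero, Nat.sub_zero]
      rw [(ee_mul hg Q m).one, one_mul, js_pow_right, Nat.cast_pow, js_pow_left]
      unfold lamQ
      rw [co_pow hp, if_neg hpQ, mul_one, nf_pow_eq h1 hg hQ hgQ hp hpQ]
      have hpo : Odd p := hp.odd_of_ne_two (by
        rintro rfl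
        exact hpQ h2)
      rw [js_star hm hpo, mul_pow]
      ring
    · intro x _
      rw [ee_pow' f hp hpQ, zero_mul]

end Pool.Agent.Y691.QT
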