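import Mathlib

set_option autoImplicit false

/-! Project QT, task T10: multiplicative functions. -/

namespace Pool.Agent.Y691.QT

open ArithmeticFunction

/-- real-valued functions, multiplicative on coprime arguments -/
structure MulF (f : ℕ → ℝ) : Prop where
  zero : f 0 = 0
  one : f 1 = 1
  mul : ∀ m n : ℕ, m.Coprime n → f (m * n) = f m * f n

/-- Dirichlet convolution -/
def cv (f g : ℕ → ℝ) (n : ℕ) : ℝ := ∑ x ∈ n.divisorsAntidiagonal, f x.1 * g x.2

/-- as an arithmetic function -/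
def toA (f : ℕ → ℝ) (h : f 0 = 0) : ArithmeticFunction ℝ := ⟨f, h⟩

theorem toA_apply (f : ℕ → ℝ) (h : f 0 = 0) (n : ℕ) : toA f h n = f n := rfl

theorem MulF.isMul {f : ℕ → ℝ} (h : MulF f) : (toA f h.zero).IsMultiplicative :=
  ⟨h.one, fun {m n} hmn => h.mul m n hmn⟩

theorem MulF.cv {f g : ℕ → ℝ} (hf : MulF f) (hg : MulF g) : MulF (cv f g) := by
  have h := hf.isMul.mul hg.isMul
  refine ⟨by simp [Pool.Agent.Y691.QT.cv], ?_, ?_⟩
  · exact h.1
  · intro m n hmn
    exact h.2 hmn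

theorem MulF.ext {f g : ℕ → ℝ} (hf : MulF f) (hg : MulF g)
    (h : ∀ p k : ℕ, p.Prime → f (p ^ (k + 1)) = g (p ^ (k + 1))) (n : ℕ) : f n = g n := by
  have := (IsMultiplicative.eq_iff_eq_on_prime_powers (toA f hf.zero) hf.isMul (toA g hg.zero)
    hg.isMul).2 (fun p k hp => by
      rcases k with _ | k
      · simp only [pow_zero, toA_apply, hf.one, hg.one]
      · exact h p k hp)
  exact congrArg (fun F : ArithmeticFunction ℝ => F n) this

theorem cv_pow (f g : ℕ → ℝ) {p : ℕ} (hp : p.Prime) (k : ℕ) :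
    cv f g (p ^ k) = ∑ i ∈ Finset.range (k + 1), f (p ^ i) * g (p ^ (k - i)) := by
  unfold cv
  rw [Nat.sum_divisorsAntidiagonal (f := fun i j => f i * g j), Nat.divisors_prime_pow hp,
    Finset.sum_map]
  refine Finset.sum_congr rfl fun i hi => ?_
  simp only [Function.Embedding.coeFn_mk]
  rw [Nat.pow_div (by simpa [Nat.lt_succ_iff] using hi) hp.pos]

theorem MulF.delta : MulF (fun n => if n = 1 then 1 else 0) := by
  refine ⟨by simp, by simp, ?_⟩
  intro m n _
  by_cases hm : m = 1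
  · by_cases hn : n = 1
    · simp [hm, hn]
    · simp [hm, hn]
  · have : m * n ≠ 1 := fun h => hm (Nat.eq_one_of_mul_eq_one_right h)
    simp [hm, this]

/-- product of two multiplicative functions -/
theorem MulF.prod {f g : ℕ → ℝ} (hf : MulF f) (hg : MulF g) : MulF (fun n => f n * g n) := by
  refine ⟨by simp [hf.zero], by simp [hf.one, hg.one], ?_⟩
  intro m n h
  simp only [hf.mul m n h, hg.mul m n h]
  ring

/-- product with a function multiplicative except for the value at zero -/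
theorem MulF.prod' {f g : ℕ → ℝ} (hf : MulF f) (h1 : g 1 = 1)
    (hg : ∀ m n : ℕ, m ≠ 0 → n ≠ 0 → m.Coprime n → g (m * n) = g m * g n) :
    MulF (fun n => f n * g n) := by
  refine ⟨by simp [hf.zero], by simp [hf.one, h1], ?_⟩
  intro m n h
  by_cases hm : m = 0
  · simp [hm, hf.zero]
  by_cases hn : n = 0
  · simp [hn, hf.zero]
  simp only [hf.mul m n h, hg m n hm hn h]
  ring

/-- multiplicative function given by its values at prime powers -/
noncomputable def ppf (u : ℕ → ℕ → ℝ) (n : ℕ) : ℝ := if n = 0 then 0 else n.factorization.prod u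

theorem ppf_mul (u : ℕ → ℕ → ℝ) : MulF (ppf u) := by
  refine ⟨by simp [ppf], by simp [ppf], ?_⟩
  intro m n h
  by_cases hm : m = 0
  · simp [ppf, hm]
  by_cases hn : n = 0
  · simp [ppf, hn]
  simp only [ppf, hm, hn, mul_eq_zero, or_self, if_false]
  rw [Nat.factorization_mul_of_coprime h]
  refine Finsupp.prod_add_index_of_disjoint ?_ u
  simpa [Nat.support_factorization] using h.disjoint_primeFactors

theorem ppf_pow (u : ℕ → ℕ → ℝ) {p : ℕ} (hp : p.Prime) (k : ℕ) :
    ppf u (p ^ (k + 1)) = u p (k + 1) := by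
  have h0 : p ^ (k + 1) ≠ 0 := pow_ne_zero _ hp.ne_zero
  simp only [ppf, h0, if_false]
  rw [hp.factorization_pow]
  unfold Finsupp.prod
  rw [Finsupp.support_single p (Nat.succ_ne_zero k)]
  simp

noncomputable def rr : ℝ := (2 : ℝ) ^ (-(1 / 4) : ℝ)

theorem rr_pos : 0 < rr := Real.rpow_pos_of_pos (by norm_num) _

theorem rr_lt : rr < 1 := Real.rpow_lt_one_of_one_lt_of_neg (by norm_num) (by norm_num)

theorem sum_rr : Summable (fun k : ℕ => ((k : ℝ) + 1) * rr ^ k) := by
  have h1 := summable_pow_mul_geometric_of_norm_lt_one 1 (r := rr) (by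
    rw [Real.norm_eq_abs, abs_of_pos rr_pos]; exact rr_lt)
  have h2 := summable_geometric_of_norm_lt_one (x := rr) (by
    rw [Real.norm_eq_abs, abs_of_pos rr_pos]; exact rr_lt)
  refine (h1.add h2).congr fun k => ?_
  ring

noncomputable def SS : ℝ := ∑' k : ℕ, ((k : ℝ) + 1) * rr ^ k

theorem one_le_SS : 1 ≤ SS := by
  have h := sum_rr.sum_le_tsum (Finset.range 1) (fun k _ => by
    have := rr_pos
    positivity)
  have e : SS = ∑' k : ℕ, ((k : ℝ) + 1) * rr ^ k := rfl
  rw [e]
  simpa using h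

theorem pow_le {p : ℕ} (hp : p.Prime) (k : ℕ) :
    ((p ^ k : ℕ) : ℝ) ^ (-(1 / 4) : ℝ) ≤ rr ^ k := by
  have hp2 : (2 : ℝ) ≤ p := by exact_mod_cast hp.two_le
  rw [Nat.cast_pow, ← Real.rpow_natCast, ← Real.rpow_mul (by positivity), mul_comm,
    Real.rpow_mul (by positivity), Real.rpow_natCast]
  refine pow_le_pow_left₀ (Real.rpow_nonneg (by positivity) _) ?_ k
  exact Real.rpow_le_rpow_of_nonpos (by norm_num) hp2 (by norm_num)

theorem sum_bd {h : ℕ → ℝ} (hm : MulF h) (Q : ℕ) (hQ : Q ≠ 0)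
    (hs : ∀ p k : ℕ, p.Prime → ¬ p ∣ Q → h (p ^ (k + 1)) = 0)
    (hb : ∀ p k : ℕ, p.Prime → |h (p ^ k)| ≤ k + 1) :
    Summable (fun a : ℕ => |h a| * (a : ℝ) ^ (-(1 / 4) : ℝ)) ∧
      ∑' a : ℕ, |h a| * (a : ℝ) ^ (-(1 / 4) : ℝ) ≤ SS ^ Q.primeFactors.card := by
  classical
  set f : ℕ → ℝ := fun a => |h a| * (a : ℝ) ^ (-(1 / 4) : ℝ) with hf
  have f0 : ∀ a, 0 ≤ f a := fun a => by simp only [hf]; positivity
  have f1 : f 1 = 1 := by simp [hf, hm.one]
  have fm : ∀ {m n : ℕ}, Nat.Coprime m n → f (m * n) = f m * f n := by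
    intro m n hmn
    simp only [hf, hm.mul m n hmn, abs_mul]
    rw [Nat.cast_mul, Real.mul_rpow (by positivity) (by positivity)]
    ring
  have fb : ∀ {p : ℕ}, p.Prime → ∀ k : ℕ, f (p ^ k) ≤ ((k : ℝ) + 1) * rr ^ k := by
    intro p hp k
    exact mul_le_mul (hb p k hp) (pow_le hp k) (Real.rpow_nonneg (by positivity) _) (by positivity)
  have fs : ∀ {p : ℕ}, p.Prime → Summable (fun n : ℕ => ‖f (p ^ n)‖) := by
    intro p hp
    refine Summable.of_nonneg_of_le (fun _ => norm_nonneg _) (fun k => ?_) sum_rr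
    rw [Real.norm_eq_abs, abs_of_nonneg (f0 _)]
    exact fb hp k
  obtain ⟨h1, h2⟩ := EulerProduct.summable_and_hasSum_factoredNumbers_prod_filter_prime_tsum
    f1 (@fm) (@fs) Q.primeFactors
  -- support
  have supp : Function.support f ⊆ Nat.factoredNumbers Q.primeFactors := by
    intro n hn
    rw [Function.mem_support] at hn
    rw [Nat.mem_factoredNumbers_iff_primeFactors_subset]
    have hn0 : n ≠ 0 := by
      rintro rfl
      exact hn (by simp [hf, hm.zero])
    refine ⟨hn0, fun p hp => ?_⟩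
    rw [Nat.mem_primeFactors] at hp ⊢
    refine ⟨hp.1, ?_, hQ⟩
    by_contra hpQ
    apply hn
    have e : f n = 0 := by
      obtain ⟨k, m, hmp, rfl⟩ := Nat.exists_eq_pow_mul_and_not_dvd hn0 p hp.1.ne_one
      have hk : k ≠ 0 := by
        rintro rfl
        rw [pow_zero, one_mul] at hp
        exact hmp hp.2.1
      obtain ⟨k, rfl⟩ := Nat.exists_eq_succ_of_ne_zero hk
      have hc : Nat.Coprime (p ^ (k + 1)) m :=
        Nat.Coprime.pow_left _ ((Nat.Prime.coprime_iff_not_dvd hp.1).2 hmp)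
      rw [fm hc]
      simp [hf, hs p k hp.1 hpQ]
    exact e
  have h3 : HasSum f (∏ p ∈ Q.primeFactors with p.Prime, ∑' n : ℕ, f (p ^ n)) := by
    have := (hasSum_subtype_iff_of_support_subset (f := f) supp).1 h2
    exact this
  refine ⟨h3.summable, ?_⟩
  rw [h3.tsum_eq]
  refine (Finset.prod_le_prod (fun p _ => tsum_nonneg fun _ => f0 _) (g := fun _ => SS)
    (fun p hp => ?_)).trans ?_
  · have hp' : p.Prime := (Finset.mem_filter.1 hp).2
    have hsum : Summable (fun n : ℕ => f (p ^ n)) := by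
      refine Summable.of_nonneg_of_le (fun _ => f0 _) (fb hp') sum_rr
    exact hsum.tsum_le_tsum (fb hp') sum_rr
  · rw [Finset.prod_const]
    exact pow_le_pow_right₀ one_le_SS (Finset.card_filter_le _ _)

end Pool.Agent.Y691.QT
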