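import Pool.Agent.Y691.QT.ApTw
import Pool.Agent.Y691.QT.Mult
import Pool.Agent.Y705.QT.Arith

set_option autoImplicit false

/-! Project QT, task T10: normalised coefficients of a newform. -/

namespace Pool.Agent.Y691.QT

open Pool.Agent.Y19.QT
open Complex UpperHalfPlane MatrixGroups CongruenceSubgroup
open Pool.Agent.H306R2.RZ (js)
open Pool.Agent.Y705.QT (js_mul js_one js_abs_le cheb_bound)

variable {a b : ℤ} {N : ℕ} {f : CuspForm (Gamma0 N : Subgroup (GL (Fin 2) ℝ)) 2}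

/-- the coefficients as real numbers -/
noncomputable def cr {N : ℕ} (f : CuspForm (Gamma0 N : Subgroup (GL (Fin 2) ℝ)) 2) (n : ℕ) : ℝ :=
  (coef f n).re

theorem coef_eq (hf : IsFormOf a b N f) (n : ℕ) : coef f n = (cr f n : ℂ) := by
  apply Complex.ext
  · simp [cr]
  · simp [hf.real n]

theorem cr_one (hf : IsFormOf a b N f) : cr f 1 = 1 := by simp [cr, hf.one]

theorem cr_mul (hf : IsFormOf a b N f) {m n : ℕ} (h : m.Coprime n) :
    cr f (m * n) = cr f m * cr f n := by
  have := hf.mul m n h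
  rw [coef_eq hf, coef_eq hf, coef_eq hf] at this
  exact_mod_cast this

theorem cr_pow (hf : IsFormOf a b N f) {p : ℕ} (hp : p.Prime) (k : ℕ) :
    cr f (p ^ (k + 2)) = cr f p * cr f (p ^ (k + 1)) -
      if p ∣ N then 0 else (p : ℝ) * cr f (p ^ k) := by
  have := hf.pow p k hp
  simp only [coef_eq hf] at this
  split_ifs at this ⊢ <;> exact_mod_cast this

/-- normalised coefficients -/
noncomputable def nf {N : ℕ} (f : CuspForm (Gamma0 N : Subgroup (GL (Fin 2) ℝ)) 2) (n : ℕ) : ℝ :=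
  cr f n / Real.sqrt n

theorem nf_mul (hf : IsFormOf a b N f) : MulF (nf f) := by
  refine ⟨by simp [nf], by simp [nf, cr_one hf], ?_⟩
  intro m n h
  unfold nf
  rw [cr_mul hf h, Nat.cast_mul, Real.sqrt_mul (by positivity)]
  rw [mul_div_mul_comm]

theorem nf_rec (hf : IsFormOf a b N f) {p : ℕ} (hp : p.Prime) (k : ℕ) :
    nf f (p ^ (k + 2)) = nf f p * nf f (p ^ (k + 1)) - if p ∣ N then 0 else nf f (p ^ k) := by
  have hp0 : (0 : ℝ) < p := by exact_mod_cast hp.pos
  have hs : (0 : ℝ) < Real.sqrt p := Real.sqrt_pos.2 hp0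
  have hss : Real.sqrt p * Real.sqrt p = p := Real.mul_self_sqrt hp0.le
  have hq : ∀ j : ℕ, Real.sqrt ((p ^ j : ℕ) : ℝ) = Real.sqrt p ^ j := by
    intro j
    rw [Nat.cast_pow, Real.sqrt_eq_rpow, Real.sqrt_eq_rpow, ← Real.rpow_natCast,
      ← Real.rpow_natCast, ← Real.rpow_mul hp0.le, ← Real.rpow_mul hp0.le, mul_comm]
  unfold nf
  rw [hq, hq, hq, cr_pow hf hp k]
  have hx : Real.sqrt (p : ℝ) ^ (k + 2) = Real.sqrt p * Real.sqrt p ^ (k + 1) := by ring
  split_ifs with h
  · rw [sub_zero, sub_zero, hx, mul_div_mul_comm]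
  · rw [sub_div, hx, mul_div_mul_comm]
    congr 1
    rw [pow_succ, mul_comm (Real.sqrt p) (_ * _), mul_assoc, hss, mul_comm (p : ℝ) (cr _ _),
      mul_div_mul_right _ _ hp0.ne']

theorem nf_good (hf : IsFormOf a b N f) {p : ℕ} (hp : p.Prime) (h : ¬ p ∣ N) : |nf f p| ≤ 2 := by
  have hp0 : (0 : ℝ) < p := by exact_mod_cast hp.pos
  have hs : (0 : ℝ) < Real.sqrt p := Real.sqrt_pos.2 hp0
  have h1 := hf.good p hp h
  rw [coef_eq hf, Complex.norm_real, Real.norm_eq_abs] at h1
  unfold nf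
  rw [abs_div, abs_of_pos hs, div_le_iff₀ hs]
  exact h1

theorem nf_bad (hf : IsFormOf a b N f) {p : ℕ} (hp : p.Prime) (h : p ∣ N) : |nf f p| ≤ 1 := by
  have hp0 : (1 : ℝ) ≤ p := by exact_mod_cast hp.one_le
  have hs : (1 : ℝ) ≤ Real.sqrt p := by
    rw [Real.one_le_sqrt]
    exact hp0
  have h1 := hf.bad p hp h
  rw [coef_eq hf, Complex.norm_real, Real.norm_eq_abs] at h1
  have hs0 : (0 : ℝ) < Real.sqrt p := by linarith
  unfold nf
  rw [abs_div, abs_of_pos hs0, div_le_iff₀ hs0]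
  linarith

theorem nf_pow_le (hf : IsFormOf a b N f) {p : ℕ} (hp : p.Prime) (k : ℕ) :
    |nf f (p ^ k)| ≤ k + 1 := by
  have hm := nf_mul hf
  by_cases h : p ∣ N
  · have h1 : ∀ k : ℕ, |nf f (p ^ k)| ≤ 1 ∧ |nf f (p ^ (k + 1))| ≤ 1 := by
      intro k
      induction k with
      | zero =>
        refine ⟨by simp [hm.one], ?_⟩
        simpa using nf_bad hf hp h
      | succ k ih =>
        refine ⟨ih.2, ?_⟩
        rw [nf_rec hf hp k, if_pos h, sub_zero, abs_mul]
        calc |nf f p| * |nf f (p ^ (k + 1))| ≤ 1 * 1 :=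
              mul_le_mul (nf_bad hf hp h) ih.2 (abs_nonneg _) (by norm_num)
          _ = 1 := by norm_num
    have := (h1 k).1
    have h2 : (0 : ℝ) ≤ k := by positivity
    linarith
  · exact cheb_bound (fun k => nf f (p ^ k)) (nf f p) (nf_good hf hp h) (by simp [hm.one])
      (by simp) (fun k => by
        have := nf_rec hf hp k
        rwa [if_neg h] at this) k

/-! ### the Jacobi symbol in the numerator -/

theorem js_mul_left (x y : ℤ) (m : ℕ) : js (x * y) m = js x m * js y m := by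
  unfold js
  rw [jacobiSym.mul_left]
  push_cast
  rfl

theorem js_one_left (m : ℕ) : js 1 m = 1 := by
  unfold js
  simp

theorem js_pow_left (x : ℤ) (k m : ℕ) : js (x ^ k) m = js x m ^ k := by
  unfold js
  rw [jacobiSym.pow_left]
  push_cast
  rfl

theorem js_pow_right (x : ℤ) (k m : ℕ) : js x (m ^ k) = js x m ^ k := by
  unfold js
  rw [jacobiSym.pow_right]
  push_cast
  rfl

theorem js_sq {x : ℤ} {m : ℕ} (h : x.gcd m = 1) : js x m ^ 2 = 1 := by
  unfold js
  have := jacobiSym.sq_one h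
  exact_mod_cast this

/-- reciprocity -/
theorem js_star {m p : ℕ} (hm : Odd m) (hp : Odd p) (g : ℤ) :
    js (g * (ZMod.χ₄ m * m)) p = js g p * js p m := by
  rw [js_mul_left]
  congr 1
  unfold js
  have h := jacobiSym.quadratic_reciprocity' hp hm
  rw [h, jacobiSym.mul_left]
  rfl

end Pool.Agent.Y691.QT
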